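import Mathlib

set_option autoImplicit false

/-!
# The quaternion algebra of the figure-eight connected sum (block A): rings

`Eis R` is `R[w]` with `w² = -1 - w`, `HQ S` is the ring generated over the commutative ring `S` by
`J₁`, `J₂` with `J₁² = J₂² = -1` and `J₁ J₂ + J₂ J₁ = 5`, with basis `1, J₁, J₂, J₁ J₂`.
-/

namespace Pool.Agent.helper82.SBA

/-- Elements `a + b w`, `w² = -1 - w`. -/
@[ext] structure Eis (R : Type*) where
  /-- constant coefficient -/
  a : R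
  /-- coefficient of `w` -/
  b : R
  deriving DecidableEq

namespace Eis

section

variable {R : Type*} [CommRing R]

instance : Zero (Eis R) := ⟨⟨0, 0⟩⟩
instance : One (Eis R) := ⟨⟨1, 0⟩⟩
instance : Add (Eis R) := ⟨fun x y => ⟨x.a + y.a, x.b + y.b⟩⟩
instance : Neg (Eis R) := ⟨fun x => ⟨-x.a, -x.b⟩⟩
instance : Sub (Eis R) := ⟨fun x y => ⟨x.a - y.a, x.b - y.b⟩⟩
instance : Mul (Eis R) :=
  ⟨fun x y => ⟨x.a * y.a - x.b * y.b, x.a * y.b + x.b * y.a - x.b * y.b⟩⟩
instance : NatCast (Eis R) := ⟨fun n => ⟨n, 0⟩⟩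
instance : IntCast (Eis R) := ⟨fun n => ⟨n, 0⟩⟩

@[simp] theorem a_zero : (0 : Eis R).a = 0 := rfl
@[simp] theorem b_zero : (0 : Eis R).b = 0 := rfl
@[simp] theorem a_one : (1 : Eis R).a = 1 := rfl
@[simp] theorem b_one : (1 : Eis R).b = 0 := rfl
@[simp] theorem a_add (x y : Eis R) : (x + y).a = x.a + y.a := rfl
@[simp] theorem b_add (x y : Eis R) : (x + y).b = x.b + y.b := rfl
@[simp] theorem a_neg (x : Eis R) : (-x).a = -x.a := rfl
@[simp] theorem b_neg (x : Eis R) : (-x).b = -x.b := rfl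
@[simp] theorem a_sub (x y : Eis R) : (x - y).a = x.a - y.a := rfl
@[simp] theorem b_sub (x y : Eis R) : (x - y).b = x.b - y.b := rfl
@[simp] theorem a_mul (x y : Eis R) : (x * y).a = x.a * y.a - x.b * y.b := rfl
@[simp] theorem b_mul (x y : Eis R) : (x * y).b = x.a * y.b + x.b * y.a - x.b * y.b := rfl
@[simp] theorem a_natCast (n : ℕ) : (n : Eis R).a = n := rfl
@[simp] theorem b_natCast (n : ℕ) : (n : Eis R).b = 0 := rfl
@[simp] theorem a_intCast (n : ℤ) : (n : Eis R).a = n := rfl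
@[simp] theorem b_intCast (n : ℤ) : (n : Eis R).b = 0 := rfl

instance : CommRing (Eis R) where
  add_assoc x y z := by ext <;> simp <;> ring
  zero_add x := by ext <;> simp
  add_zero x := by ext <;> simp
  add_comm x y := by ext <;> simp <;> ring
  neg_add_cancel x := by ext <;> simp
  sub_eq_add_neg x y := by ext <;> simp <;> ring
  mul_assoc x y z := by ext <;> simp <;> ring
  one_mul x := by ext <;> simp
  mul_one x := by ext <;> simp
  zero_mul x := by ext <;> simp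
  mul_zero x := by ext <;> simp
  left_distrib x y z := by ext <;> simp <;> ring
  right_distrib x y z := by ext <;> simp <;> ring
  mul_comm x y := by ext <;> simp <;> ring
  natCast_zero := by ext <;> simp
  natCast_succ n := by ext <;> simp
  intCast_ofNat n := by ext <;> simp
  intCast_negSucc n := by ext <;> simp
  nsmul := nsmulRec
  zsmul := zsmulRec

@[simp] theorem a_ofNat (n : ℕ) [n.AtLeastTwo] :
    (ofNat(n) : Eis R).a = ofNat(n) := rfl
@[simp] theorem b_ofNat (n : ℕ) [n.AtLeastTwo] : (ofNat(n) : Eis R).b = 0 := rfl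

/-- Conjugation `w ↦ w² = -1 - w`. -/
instance : StarRing (Eis R) where
  star x := ⟨x.a - x.b, -x.b⟩
  star_involutive x := by ext <;> simp
  star_mul x y := by ext <;> simp <;> ring
  star_add x y := by ext <;> simp <;> ring

@[simp] theorem a_star (x : Eis R) : (star x).a = x.a - x.b := rfl
@[simp] theorem b_star (x : Eis R) : (star x).b = -x.b := rfl

/-- The norm `x x*` as an element of `R`. -/
def nm (x : Eis R) : R := x.a * x.a - x.a * x.b + x.b * x.b

theorem mul_star (x : Eis R) : x * star x = ⟨nm x, 0⟩ := by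
  ext <;> simp [nm] <;> ring

theorem nm_mul (x y : Eis R) : nm (x * y) = nm x * nm y := by
  simp only [nm, a_mul, b_mul]; ring

/-- Functoriality. -/
def map {R' : Type*} [CommRing R'] (f : R →+* R') : Eis R →+* Eis R' where
  toFun x := ⟨f x.a, f x.b⟩
  map_zero' := by ext <;> simp
  map_one' := by ext <;> simp
  map_add' x y := by ext <;> simp
  map_mul' x y := by ext <;> simp

@[simp] theorem map_a {R' : Type*} [CommRing R'] (f : R →+* R') (x : Eis R) :
    (map f x).a = f x.a := rfl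
@[simp] theorem map_b {R' : Type*} [CommRing R'] (f : R →+* R') (x : Eis R) :
    (map f x).b = f x.b := rfl

end

end Eis

/-- Elements `c0 + c1 J₁ + c2 J₂ + c3 J₁ J₂`. -/
@[ext] structure HQ (S : Type*) where
  /-- coefficient of `1` -/
  c0 : S
  /-- coefficient of `J₁` -/
  c1 : S
  /-- coefficient of `J₂` -/
  c2 : S
  /-- coefficient of `J₁ J₂` -/
  c3 : S
  deriving DecidableEq

namespace HQ

section

variable {S : Type*} [CommRing S]

instance : Zero (HQ S) := ⟨⟨0, 0, 0, 0⟩⟩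
instance : One (HQ S) := ⟨⟨1, 0, 0, 0⟩⟩
instance : Add (HQ S) := ⟨fun x y => ⟨x.c0 + y.c0, x.c1 + y.c1, x.c2 + y.c2, x.c3 + y.c3⟩⟩
instance : Neg (HQ S) := ⟨fun x => ⟨-x.c0, -x.c1, -x.c2, -x.c3⟩⟩
instance : Sub (HQ S) := ⟨fun x y => ⟨x.c0 - y.c0, x.c1 - y.c1, x.c2 - y.c2, x.c3 - y.c3⟩⟩
instance : Mul (HQ S) :=
  ⟨fun x y =>
    ⟨x.c0 * y.c0 - x.c1 * y.c1 - x.c2 * y.c2 - x.c3 * y.c3 + 5 * (x.c2 * y.c1),
      x.c0 * y.c1 + x.c1 * y.c0 + x.c2 * y.c3 - x.c3 * y.c2 + 5 * (x.c3 * y.c1),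
      x.c0 * y.c2 + x.c2 * y.c0 - x.c1 * y.c3 + x.c3 * y.c1 + 5 * (x.c2 * y.c3),
      x.c0 * y.c3 + x.c3 * y.c0 + x.c1 * y.c2 - x.c2 * y.c1 + 5 * (x.c3 * y.c3)⟩⟩
instance : NatCast (HQ S) := ⟨fun n => ⟨n, 0, 0, 0⟩⟩
instance : IntCast (HQ S) := ⟨fun n => ⟨n, 0, 0, 0⟩⟩

@[simp] theorem c0_zero : (0 : HQ S).c0 = 0 := rfl
@[simp] theorem c1_zero : (0 : HQ S).c1 = 0 := rfl
@[simp] theorem c2_zero : (0 : HQ S).c2 = 0 := rfl
@[simp] theorem c3_zero : (0 : HQ S).c3 = 0 := rfl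
@[simp] theorem c0_one : (1 : HQ S).c0 = 1 := rfl
@[simp] theorem c1_one : (1 : HQ S).c1 = 0 := rfl
@[simp] theorem c2_one : (1 : HQ S).c2 = 0 := rfl
@[simp] theorem c3_one : (1 : HQ S).c3 = 0 := rfl
@[simp] theorem c0_add (x y : HQ S) : (x + y).c0 = x.c0 + y.c0 := rfl
@[simp] theorem c1_add (x y : HQ S) : (x + y).c1 = x.c1 + y.c1 := rfl
@[simp] theorem c2_add (x y : HQ S) : (x + y).c2 = x.c2 + y.c2 := rfl
@[simp] theorem c3_add (x y : HQ S) : (x + y).c3 = x.c3 + y.c3 := rfl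
@[simp] theorem c0_neg (x : HQ S) : (-x).c0 = -x.c0 := rfl
@[simp] theorem c1_neg (x : HQ S) : (-x).c1 = -x.c1 := rfl
@[simp] theorem c2_neg (x : HQ S) : (-x).c2 = -x.c2 := rfl
@[simp] theorem c3_neg (x : HQ S) : (-x).c3 = -x.c3 := rfl
@[simp] theorem c0_sub (x y : HQ S) : (x - y).c0 = x.c0 - y.c0 := rfl
@[simp] theorem c1_sub (x y : HQ S) : (x - y).c1 = x.c1 - y.c1 := rfl
@[simp] theorem c2_sub (x y : HQ S) : (x - y).c2 = x.c2 - y.c2 := rfl
@[simp] theorem c3_sub (x y : HQ S) : (x - y).c3 = x.c3 - y.c3 := rfl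
@[simp] theorem c0_mul (x y : HQ S) : (x * y).c0 =
    x.c0 * y.c0 - x.c1 * y.c1 - x.c2 * y.c2 - x.c3 * y.c3 + 5 * (x.c2 * y.c1) := rfl
@[simp] theorem c1_mul (x y : HQ S) : (x * y).c1 =
    x.c0 * y.c1 + x.c1 * y.c0 + x.c2 * y.c3 - x.c3 * y.c2 + 5 * (x.c3 * y.c1) := rfl
@[simp] theorem c2_mul (x y : HQ S) : (x * y).c2 =
    x.c0 * y.c2 + x.c2 * y.c0 - x.c1 * y.c3 + x.c3 * y.c1 + 5 * (x.c2 * y.c3) := rfl
@[simp] theorem c3_mul (x y : HQ S) : (x * y).c3 =
    x.c0 * y.c3 + x.c3 * y.c0 + x.c1 * y.c2 - x.c2 * y.c1 + 5 * (x.c3 * y.c3) := rfl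
@[simp] theorem c0_natCast (n : ℕ) : (n : HQ S).c0 = n := rfl
@[simp] theorem c1_natCast (n : ℕ) : (n : HQ S).c1 = 0 := rfl
@[simp] theorem c2_natCast (n : ℕ) : (n : HQ S).c2 = 0 := rfl
@[simp] theorem c3_natCast (n : ℕ) : (n : HQ S).c3 = 0 := rfl
@[simp] theorem c0_intCast (n : ℤ) : (n : HQ S).c0 = n := rfl
@[simp] theorem c1_intCast (n : ℤ) : (n : HQ S).c1 = 0 := rfl
@[simp] theorem c2_intCast (n : ℤ) : (n : HQ S).c2 = 0 := rfl
@[simp] theorem c3_intCast (n : ℤ) : (n : HQ S).c3 = 0 := rfl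

instance : Ring (HQ S) where
  add_assoc x y z := by ext <;> simp <;> ring
  zero_add x := by ext <;> simp
  add_zero x := by ext <;> simp
  add_comm x y := by ext <;> simp <;> ring
  neg_add_cancel x := by ext <;> simp
  sub_eq_add_neg x y := by ext <;> simp <;> ring
  mul_assoc x y z := by ext <;> simp <;> ring
  one_mul x := by ext <;> simp
  mul_one x := by ext <;> simp
  zero_mul x := by ext <;> simp
  mul_zero x := by ext <;> simp
  left_distrib x y z := by ext <;> simp <;> ring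
  right_distrib x y z := by ext <;> simp <;> ring
  natCast_zero := by ext <;> simp
  natCast_succ n := by ext <;> simp
  intCast_ofNat n := by ext <;> simp
  intCast_negSucc n := by ext <;> simp
  nsmul := nsmulRec
  zsmul := zsmulRec

@[simp] theorem c0_ofNat (n : ℕ) [n.AtLeastTwo] :
    (ofNat(n) : HQ S).c0 = ofNat(n) := rfl
@[simp] theorem c1_ofNat (n : ℕ) [n.AtLeastTwo] : (ofNat(n) : HQ S).c1 = 0 := rfl
@[simp] theorem c2_ofNat (n : ℕ) [n.AtLeastTwo] : (ofNat(n) : HQ S).c2 = 0 := rfl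
@[simp] theorem c3_ofNat (n : ℕ) [n.AtLeastTwo] : (ofNat(n) : HQ S).c3 = 0 := rfl

/-- Reduced norm: `x` times its quaternion conjugate. -/
def nrd (x : HQ S) : S :=
  x.c0 * x.c0 + 5 * (x.c0 * x.c3) + x.c3 * x.c3 + x.c1 * x.c1 + x.c2 * x.c2
    - 5 * (x.c1 * x.c2)

/-- Quaternion conjugation. -/
def bar (x : HQ S) : HQ S := ⟨x.c0 + 5 * x.c3, -x.c1, -x.c2, -x.c3⟩

@[simp] theorem c0_bar (x : HQ S) : (bar x).c0 = x.c0 + 5 * x.c3 := rfl
@[simp] theorem c1_bar (x : HQ S) : (bar x).c1 = -x.c1 := rfl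
@[simp] theorem c2_bar (x : HQ S) : (bar x).c2 = -x.c2 := rfl
@[simp] theorem c3_bar (x : HQ S) : (bar x).c3 = -x.c3 := rfl

theorem mul_bar (x : HQ S) : x * bar x = ⟨nrd x, 0, 0, 0⟩ := by
  ext <;> simp [nrd] <;> ring

theorem bar_mul (x : HQ S) : bar x * x = ⟨nrd x, 0, 0, 0⟩ := by
  ext <;> simp [nrd] <;> ring

theorem nrd_mul (x y : HQ S) : nrd (x * y) = nrd x * nrd y := by
  simp only [nrd, c0_mul, c1_mul, c2_mul, c3_mul]; ring

theorem nrd_one : nrd (1 : HQ S) = 1 := by simp [nrd]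

/-- Functoriality. -/
def map {S' : Type*} [CommRing S'] (f : S →+* S') : HQ S →+* HQ S' where
  toFun x := ⟨f x.c0, f x.c1, f x.c2, f x.c3⟩
  map_zero' := by ext <;> simp
  map_one' := by ext <;> simp
  map_add' x y := by ext <;> simp
  map_mul' x y := by
    have h5 : f 5 = 5 := map_ofNat f 5
    ext <;> simp [h5]

@[simp] theorem map_c0 {S' : Type*} [CommRing S'] (f : S →+* S') (x : HQ S) :
    (map f x).c0 = f x.c0 := rfl
@[simp] theorem map_c1 {S' : Type*} [CommRing S'] (f : S →+* S') (x : HQ S) :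
    (map f x).c1 = f x.c1 := rfl
@[simp] theorem map_c2 {S' : Type*} [CommRing S'] (f : S →+* S') (x : HQ S) :
    (map f x).c2 = f x.c2 := rfl
@[simp] theorem map_c3 {S' : Type*} [CommRing S'] (f : S →+* S') (x : HQ S) :
    (map f x).c3 = f x.c3 := rfl

end

section

variable {S : Type*} [CommRing S] [StarRing S]

/-- The involution with `w ↦ w²`, `J₁ ↦ J₁`, `J₂ ↦ J₂`, `(x y)* = y* x*`. -/
instance : StarRing (HQ S) where
  star x := ⟨star x.c0 + 5 * star x.c3, star x.c1, star x.c2, -star x.c3⟩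
  star_involutive x := by ext <;> simp [mul_comm]
  star_mul x y := by ext <;> simp <;> ring
  star_add x y := by ext <;> simp <;> ring

@[simp] theorem c0_star (x : HQ S) : (star x).c0 = star x.c0 + 5 * star x.c3 := rfl
@[simp] theorem c1_star (x : HQ S) : (star x).c1 = star x.c1 := rfl
@[simp] theorem c2_star (x : HQ S) : (star x).c2 = star x.c2 := rfl
@[simp] theorem c3_star (x : HQ S) : (star x).c3 = -star x.c3 := rfl

end

end HQ

/-- The embedding of `R` into `Eis R`-coefficients: the constant `a + b w`. -/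
def cst {R : Type*} [CommRing R] (a b : R) : HQ (Eis R) := ⟨⟨a, b⟩, 0, 0, 0⟩

/-- `J₁`. -/
def J1 {R : Type*} [CommRing R] : HQ (Eis R) := ⟨0, 1, 0, 0⟩

/-- `J₂`. -/
def J2 {R : Type*} [CommRing R] : HQ (Eis R) := ⟨0, 0, 1, 0⟩

/-- The primitive sixth root of unity `t = 1 + w`. -/
def tt {R : Type*} [CommRing R] : HQ (Eis R) := cst 1 1

end Pool.Agent.helper82.SBA
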