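import Pool.Agent.helper82.SBA.Alg

set_option autoImplicit false

/-!
# The quaternion algebra of the figure-eight connected sum (block A): a division ring
-/

namespace Pool.Agent.helper82.SBA

/-- The division ring of the colouring. -/
abbrev D := HQ (Eis ℚ)

theorem nm_nonneg (x : Eis ℤ) : 0 ≤ x.nm := by
  simp only [Eis.nm]; nlinarith [sq_nonneg (x.a - x.b), sq_nonneg x.a, sq_nonneg x.b]

theorem nm_eq_zero (x : Eis ℤ) (h : x.nm = 0) : x = 0 := by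
  simp only [Eis.nm] at h
  have h1 : (2 * x.a - x.b) ^ 2 + 3 * x.b ^ 2 = 0 := by linear_combination 4 * h
  have hb : x.b = 0 := by nlinarith [sq_nonneg (2 * x.a - x.b), sq_nonneg x.b]
  have ha : x.a = 0 := by
    rw [hb] at h
    nlinarith [sq_nonneg x.a]
  ext <;> simp [ha, hb]

theorem nm_q_eq_zero (x : Eis ℚ) (h : x.nm = 0) : x = 0 := by
  simp only [Eis.nm] at h
  have h1 : (2 * x.a - x.b) ^ 2 + 3 * x.b ^ 2 = 0 := by linear_combination 4 * h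
  have hb : x.b = 0 := by nlinarith [sq_nonneg (2 * x.a - x.b), sq_nonneg x.b]
  have ha : x.a = 0 := by
    rw [hb] at h
    nlinarith [sq_nonneg x.a]
  ext <;> simp [ha, hb]

/-- The residue map modulo `2 - w`. -/
def ph (x : Eis ℤ) : ℤ := x.a + 2 * x.b

theorem ph_dvd (x : Eis ℤ) (h : (7 : ℤ) ∣ ph x) : ∃ y : Eis ℤ, x = ⟨2, -1⟩ * y := by
  obtain ⟨k, hk⟩ := h
  simp only [ph] at hk
  refine ⟨⟨3 * k - x.b, k⟩, ?_⟩
  ext
  · simp only [Eis.a_mul]; omega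
  · simp only [Eis.b_mul]; omega

theorem sq_add_sq_dvd (m n : ℤ) (h : (7 : ℤ) ∣ m * m + n * n) : (7 : ℤ) ∣ m ∧ (7 : ℤ) ∣ n := by
  have key : ∀ a b : ZMod 7, a * a + b * b = 0 → a = 0 ∧ b = 0 := by decide
  have h1 : ((m * m + n * n : ℤ) : ZMod 7) = 0 := (ZMod.intCast_zmod_eq_zero_iff_dvd _ 7).2 h
  push_cast at h1
  have h2 := key _ _ h1
  exact ⟨(ZMod.intCast_zmod_eq_zero_iff_dvd _ 7).1 h2.1,
    (ZMod.intCast_zmod_eq_zero_iff_dvd _ 7).1 h2.2⟩

theorem nm_pi (y : Eis ℤ) : (⟨2, -1⟩ * y : Eis ℤ).nm = 7 * y.nm := by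
  rw [Eis.nm_mul]; simp [Eis.nm]

theorem descent (n : ℕ) : ∀ X Y Z W : Eis ℤ, X.nm + Y.nm + Z.nm + W.nm ≤ n →
    X * X + Y * Y = 21 * (Z * Z + W * W) → X = 0 ∧ Y = 0 ∧ Z = 0 ∧ W = 0 := by
  induction n using Nat.strong_induction_on with
  | _ n ih =>
    intro X Y Z W hn h
    have ha := congrArg Eis.a h
    have hb := congrArg Eis.b h
    simp only [Eis.a_add, Eis.b_add, Eis.a_mul, Eis.b_mul, Eis.a_ofNat, Eis.b_ofNat] at ha hb
    have h7 : (7 : ℤ) ∣ ph X * ph X + ph Y * ph Y := by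
      refine ⟨3 * ((Z.a * Z.a - Z.b * Z.b + (W.a * W.a - W.b * W.b)) +
        2 * (Z.a * Z.b + Z.b * Z.a - Z.b * Z.b + (W.a * W.b + W.b * W.a - W.b * W.b))) +
        (X.b * X.b + Y.b * Y.b), ?_⟩
      simp only [ph]
      linear_combination ha + 2 * hb
    obtain ⟨hX, hY⟩ := sq_add_sq_dvd _ _ h7
    obtain ⟨X', rfl⟩ := ph_dvd X hX
    obtain ⟨Y', rfl⟩ := ph_dvd Y hY
    have h2 : (⟨2, -1⟩ : Eis ℤ) * (X' * X' + Y' * Y') = 3 * ⟨3, 1⟩ * (Z * Z + W * W) := by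
      have h3 : (7 : Eis ℤ) * ((⟨2, -1⟩ : Eis ℤ) * (X' * X' + Y' * Y')) =
          7 * (3 * ⟨3, 1⟩ * (Z * Z + W * W)) := by
        have e7 : (7 : Eis ℤ) = ⟨2, -1⟩ * ⟨3, 1⟩ := by decide
        have e21 : (21 : Eis ℤ) = 3 * 7 := by decide
        calc (7 : Eis ℤ) * ((⟨2, -1⟩ : Eis ℤ) * (X' * X' + Y' * Y'))
            = ⟨3, 1⟩ * (⟨2, -1⟩ * X' * (⟨2, -1⟩ * X') + ⟨2, -1⟩ * Y' * (⟨2, -1⟩ * Y')) := by
              rw [e7]; ring
          _ = 7 * (3 * ⟨3, 1⟩ * (Z * Z + W * W)) := by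
              rw [h, e21]; ring
      have ha2 := congrArg Eis.a h3
      have hb2 := congrArg Eis.b h3
      rw [Eis.a_mul, Eis.a_mul 7] at ha2
      rw [Eis.b_mul, Eis.b_mul 7] at hb2
      simp only [Eis.a_ofNat, Eis.b_ofNat, zero_mul, sub_zero, add_zero] at ha2 hb2
      ext
      · linarith
      · linarith
    have h72 : (7 : ℤ) ∣ ph Z * ph Z + ph W * ph W := by
      have ha2 := congrArg Eis.a h2
      have hb2 := congrArg Eis.b h2
      simp only [Eis.a_add, Eis.b_add, Eis.a_mul, Eis.b_mul, Eis.a_ofNat, Eis.b_ofNat] at ha2 hb2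
      have : (7 : ℤ) ∣ 15 * (ph Z * ph Z + ph W * ph W) := by
        refine ⟨X'.a * X'.b + X'.b * X'.a - X'.b * X'.b +
          (Y'.a * Y'.b + Y'.b * Y'.a - Y'.b * Y'.b) +
          3 * (Z.a * Z.b + Z.b * Z.a - Z.b * Z.b + (W.a * W.b + W.b * W.a - W.b * W.b)) +
          15 * (Z.b * Z.b + W.b * W.b), ?_⟩
        simp only [ph]
        linear_combination -ha2 - 2 * hb2
      omega
    obtain ⟨hZ, hW⟩ := sq_add_sq_dvd _ _ h72
    obtain ⟨Z', rfl⟩ := ph_dvd Z hZ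
    obtain ⟨W', rfl⟩ := ph_dvd W hW
    have h4 : X' * X' + Y' * Y' = 21 * (Z' * Z' + W' * W') := by
      have h3 : (7 : Eis ℤ) * (X' * X' + Y' * Y') = 7 * (21 * (Z' * Z' + W' * W')) := by
        have e7 : (7 : Eis ℤ) = ⟨2, -1⟩ * ⟨3, 1⟩ := by decide
        have e21 : (21 : Eis ℤ) = 3 * (⟨2, -1⟩ * ⟨3, 1⟩) := by decide
        calc (7 : Eis ℤ) * (X' * X' + Y' * Y')
            = ⟨3, 1⟩ * (⟨2, -1⟩ * (X' * X' + Y' * Y')) := by
              rw [e7]; ring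
          _ = 7 * (21 * (Z' * Z' + W' * W')) := by
              rw [h2, e21, e7]; ring
      have ha2 := congrArg Eis.a h3
      have hb2 := congrArg Eis.b h3
      rw [Eis.a_mul, Eis.a_mul 7] at ha2
      rw [Eis.b_mul, Eis.b_mul 7] at hb2
      simp only [Eis.a_ofNat, Eis.b_ofNat, zero_mul, sub_zero, add_zero] at ha2 hb2
      ext
      · linarith
      · linarith
    rw [nm_pi, nm_pi, nm_pi, nm_pi] at hn
    have p1 := nm_nonneg X'
    have p2 := nm_nonneg Y'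
    have p3 := nm_nonneg Z'
    have p4 := nm_nonneg W'
    rcases Nat.eq_zero_or_pos n with h0 | hpos
    · subst h0
      have q1 : X'.nm = 0 := by push_cast at hn; linarith
      have q2 : Y'.nm = 0 := by push_cast at hn; linarith
      have q3 : Z'.nm = 0 := by push_cast at hn; linarith
      have q4 : W'.nm = 0 := by push_cast at hn; linarith
      rw [nm_eq_zero _ q1, nm_eq_zero _ q2, nm_eq_zero _ q3, nm_eq_zero _ q4]
      simp
    · obtain ⟨r1, r2, r3, r4⟩ := ih (n / 7) (by omega) X' Y' Z' W' (by push_cast; omega) h4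
      rw [r1, r2, r3, r4]
      simp

theorem nrd_int (y : HQ (Eis ℤ)) (h : y.nrd = 0) : y = 0 := by
  have key : (2 * y.c0 + 5 * y.c3) * (2 * y.c0 + 5 * y.c3) +
      (2 * y.c1 - 5 * y.c2) * (2 * y.c1 - 5 * y.c2) =
      21 * (y.c2 * y.c2 + y.c3 * y.c3) := by
    simp only [HQ.nrd] at h
    linear_combination 4 * h
  obtain ⟨n, hn⟩ : ∃ n : ℕ, (2 * y.c0 + 5 * y.c3).nm + (2 * y.c1 - 5 * y.c2).nm + y.c2.nm +
      y.c3.nm ≤ n := ⟨_, Int.self_le_toNat _⟩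
  obtain ⟨h1, h2, h3, h4⟩ := descent n _ _ _ _ hn key
  rw [h4] at h1
  rw [h3] at h2
  have two : ∀ z : Eis ℤ, 2 * z = 0 → z = 0 := by
    intro z hz
    have ha := congrArg Eis.a hz
    have hb := congrArg Eis.b hz
    simp only [Eis.a_mul, Eis.b_mul, Eis.a_ofNat, Eis.b_ofNat, Eis.a_zero, Eis.b_zero] at ha hb
    ext
    · simp only [Eis.a_zero]; omega
    · simp only [Eis.b_zero]; omega
  ext1
  · exact two _ (by simpa using h1)
  · exact two _ (by simpa using h2)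
  · exact h3
  · exact h4

/-- The embedding of the integral elements. -/
def emb : HQ (Eis ℤ) →+* D := HQ.map (Eis.map (Int.castRingHom ℚ))

theorem emb_injective : Function.Injective emb := by
  intro x y h
  have h0 := congrArg HQ.c0 h
  have h1 := congrArg HQ.c1 h
  have h2 := congrArg HQ.c2 h
  have h3 := congrArg HQ.c3 h
  have inj : ∀ u v : Eis ℤ, Eis.map (Int.castRingHom ℚ) u = Eis.map (Int.castRingHom ℚ) v →
      u = v := by
    intro u v huv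
    have ha := congrArg Eis.a huv
    have hb := congrArg Eis.b huv
    simp only [Eis.map_a, Eis.map_b, eq_intCast, Int.cast_inj] at ha hb
    ext
    · exact ha
    · exact hb
  ext1
  · exact inj _ _ h0
  · exact inj _ _ h1
  · exact inj _ _ h2
  · exact inj _ _ h3

theorem emb_nrd (y : HQ (Eis ℤ)) :
    (emb y).nrd = Eis.map (Int.castRingHom ℚ) y.nrd := by
  have h5 : Eis.map (Int.castRingHom ℚ) 5 = 5 := map_ofNat _ 5
  simp only [HQ.nrd, emb, HQ.map_c0, HQ.map_c1, HQ.map_c2, HQ.map_c3, map_add, map_sub, map_mul,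
    h5]

theorem exists_int (x : D) : ∃ (m : ℤ) (y : HQ (Eis ℤ)), m ≠ 0 ∧ emb y = (m : D) * x := by
  classical
  obtain ⟨b, hb⟩ := IsLocalization.exist_integer_multiples_of_finset (nonZeroDivisors ℤ)
    ({x.c0.a, x.c0.b, x.c1.a, x.c1.b, x.c2.a, x.c2.b, x.c3.a, x.c3.b} : Finset ℚ)
  have hb0 : (b : ℤ) ≠ 0 := nonZeroDivisors.coe_ne_zero b
  have key : ∀ q ∈ ({x.c0.a, x.c0.b, x.c1.a, x.c1.b, x.c2.a, x.c2.b, x.c3.a, x.c3.b} :
      Finset ℚ), ∃ k : ℤ, (k : ℚ) = ((b : ℤ) : ℚ) * q := by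
    intro q hq
    obtain ⟨k, hk⟩ := hb q hq
    refine ⟨k, ?_⟩
    simpa [Submonoid.smul_def] using hk
  obtain ⟨k1, h1⟩ := key x.c0.a (by simp)
  obtain ⟨k2, h2⟩ := key x.c0.b (by simp)
  obtain ⟨k3, h3⟩ := key x.c1.a (by simp)
  obtain ⟨k4, h4⟩ := key x.c1.b (by simp)
  obtain ⟨k5, h5⟩ := key x.c2.a (by simp)
  obtain ⟨k6, h6⟩ := key x.c2.b (by simp)
  obtain ⟨k7, h7⟩ := key x.c3.a (by simp)
  obtain ⟨k8, h8⟩ := key x.c3.b (by simp)
  refine ⟨b, ⟨⟨k1, k2⟩, ⟨k3, k4⟩, ⟨k5, k6⟩, ⟨k7, k8⟩⟩, hb0, ?_⟩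
  ext <;> simp [emb, h1, h2, h3, h4, h5, h6, h7, h8]

theorem nrd_ne_zero (x : D) (hx : x ≠ 0) : x.nrd ≠ 0 := by
  intro h
  obtain ⟨m, y, hm, hy⟩ := exists_int x
  have h1 : (emb y).nrd = 0 := by rw [hy, HQ.nrd_mul, h, mul_zero]
  rw [emb_nrd] at h1
  have h2 : y.nrd = 0 := by
    have ha := congrArg Eis.a h1
    have hb := congrArg Eis.b h1
    simp only [Eis.map_a, Eis.map_b, eq_intCast, Eis.a_zero, Eis.b_zero, Int.cast_eq_zero]
      at ha hb
    ext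
    · exact ha
    · exact hb
  have h3 := nrd_int y h2
  rw [h3, map_zero] at hy
  apply hx
  have hmq : (m : ℚ) ≠ 0 := by exact_mod_cast hm
  have e : ∀ f : D → ℚ, (f 0 = 0) → f ((m : D) * x) = (m : ℚ) * f x → f x = 0 := by
    intro f h0 hf
    rw [← hy, h0] at hf
    rcases mul_eq_zero.1 hf.symm with h | h
    · exact absurd h hmq
    · exact h
  ext
  · exact e (fun z => z.c0.a) rfl (by simp)
  · exact e (fun z => z.c0.b) rfl (by simp)
  · exact e (fun z => z.c1.a) rfl (by simp)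
  · exact e (fun z => z.c1.b) rfl (by simp)
  · exact e (fun z => z.c2.a) rfl (by simp)
  · exact e (fun z => z.c2.b) rfl (by simp)
  · exact e (fun z => z.c3.a) rfl (by simp)
  · exact e (fun z => z.c3.b) rfl (by simp)

/-- The inverse of an element of `ℚ(w)`. -/
def qinv (x : Eis ℚ) : Eis ℚ := ⟨(x.a - x.b) / x.nm, -x.b / x.nm⟩

theorem mul_qinv (x : Eis ℚ) (hx : x ≠ 0) : x * qinv x = 1 := by
  have h : x.nm ≠ 0 := fun h => hx (nm_q_eq_zero x h)
  ext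
  · simp only [qinv, Eis.a_mul, Eis.a_one]
    field_simp
    simp only [Eis.nm]; ring
  · simp only [qinv, Eis.b_mul, Eis.b_one]
    field_simp
    ring

theorem isUnit_of_ne_zero (x : D) (hx : x ≠ 0) : IsUnit x := by
  have h := nrd_ne_zero x hx
  have h1 := mul_qinv _ h
  have c : ∀ (s : Eis ℚ) (z : D), (⟨s, 0, 0, 0⟩ : D) * z = z * ⟨s, 0, 0, 0⟩ := by
    intro s z
    ext1 <;> simp [mul_comm]
  have m : ∀ (s r : Eis ℚ), (⟨s, 0, 0, 0⟩ : D) * ⟨r, 0, 0, 0⟩ = ⟨s * r, 0, 0, 0⟩ := by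
    intro s r
    ext1 <;> simp
  have one : (⟨1, 0, 0, 0⟩ : D) = 1 := rfl
  refine ⟨⟨x, x.bar * ⟨qinv x.nrd, 0, 0, 0⟩, ?_, ?_⟩, rfl⟩
  · rw [← mul_assoc, HQ.mul_bar, m, h1, one]
  · rw [← c, mul_assoc, HQ.bar_mul, m, mul_comm, h1, one]

instance : Nontrivial D := ⟨0, 1, fun h => by
  have := congrArg (fun z : D => z.c0.a) h
  simp at this⟩

noncomputable instance : DivisionRing D :=
  DivisionRing.ofIsUnitOrEqZero fun x => by
    by_cases h : x = 0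
    · exact Or.inr h
    · exact Or.inl (isUnit_of_ne_zero x h)

end Pool.Agent.helper82.SBA
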