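import Pool.Agent.helper82.SBA.Div
import Pool.Agent.helper81.SBX.GDefs

set_option autoImplicit false

/-!
# The quaternion algebra of the figure-eight connected sum (block A): the final contradiction
-/

namespace Pool.Agent.helper82.SBA

open Pool.Agent.helper81.SBX

/-- The order of integral elements. -/
def O : Subring D := emb.range

/-- The longitude `g = (-2 - c J₁)(-2 - c J₂)`, `c = 1 + 2 w`. -/
def gg {R : Type*} [CommRing R] : HQ (Eis R) := ⟨4, ⟨2, 4⟩, ⟨2, 4⟩, -3⟩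

theorem emb_star (x : HQ (Eis ℤ)) : emb (star x) = star (emb x) := by
  ext <;> simp [emb]

theorem emb_tt : emb tt = tt := by
  ext <;> simp [emb, tt, cst]

theorem emb_gg : emb gg = gg := by
  ext <;> simp [emb, gg]

theorem emb_J1 : emb J1 = J1 := by
  ext <;> simp [emb, J1]

theorem emb_J2 : emb J2 = J2 := by
  ext <;> simp [emb, J2]

theorem six_tt : Six D tt where
  central x := by ext1 <;> simp [tt, cst, mul_comm]
  sq := by ext <;> simp [tt, cst]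
  unit := by ext <;> simp [tt, cst]

theorem tt_pow_six : (tt : HQ (Eis ℤ)) ^ 6 = 1 := by decide

theorem gg_unit : (gg : D) * star gg = 1 := by
  ext <;> simp [gg] <;> norm_num

theorem fin_aux (r s x1 x2 l1 l2 ρ m1 m2 : ℤ) (e7 : 3 * x1 = l1) (e8 : 3 * x2 = l2)
    (hA : l1 * l1 - l2 * l2 + 15 * (l1 * (r - 2 * s) - l2 * (2 * r - s)) -
      135 * (r * r - s * s) = 3 * (m1 * ρ))
    (hB : l1 * l2 + l2 * l1 - l2 * l2 + 15 * (l1 * (2 * r - s) + l2 * (r - 2 * s) -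
      l2 * (2 * r - s)) - 135 * (r * s + s * r - s * s) = 3 * (m2 * ρ))
    (hm : m1 * m1 - m1 * m2 + m2 * m2 = 1)
    (hρ : 5 * (r * r - r * s + s * s) ≤ ρ) (hρ' : ρ ≤ 9 * (r * r - r * s + s * s))
    (hn : Eis.nm (HQ.nrd (⟨⟨x1, x2⟩, ⟨2 * r, 2 * s⟩, ⟨2 * r, 2 * s⟩,
      ⟨r - 2 * s, 2 * r - s⟩⟩ : HQ (Eis ℤ))) = 1) : False := by
  set N := HQ.nrd (⟨⟨x1, x2⟩, ⟨2 * r, 2 * s⟩, ⟨2 * r, 2 * s⟩,
      ⟨r - 2 * s, 2 * r - s⟩⟩ : HQ (Eis ℤ)) with hN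
  have hNa : 3 * N.a = m1 * ρ := by
    have : 9 * N.a = l1 * l1 - l2 * l2 + 15 * (l1 * (r - 2 * s) - l2 * (2 * r - s)) -
      135 * (r * r - s * s) := by
      rw [hN, ← e7, ← e8]
      simp only [HQ.nrd, Eis.a_add, Eis.b_add, Eis.a_sub, Eis.b_sub, Eis.a_mul, Eis.b_mul,
        Eis.a_ofNat, Eis.b_ofNat]
      ring
    omega
  have hNb : 3 * N.b = m2 * ρ := by
    have : 9 * N.b = l1 * l2 + l2 * l1 - l2 * l2 + 15 * (l1 * (2 * r - s) + l2 * (r - 2 * s) -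
      l2 * (2 * r - s)) - 135 * (r * s + s * r - s * s) := by
      rw [hN, ← e7, ← e8]
      simp only [HQ.nrd, Eis.a_add, Eis.b_add, Eis.a_sub, Eis.b_sub, Eis.a_mul, Eis.b_mul,
        Eis.a_ofNat, Eis.b_ofNat]
      ring
    omega
  have h9 : ρ * ρ = 9 := by
    have : 9 * N.nm = (m1 * m1 - m1 * m2 + m2 * m2) * (ρ * ρ) := by
      simp only [Eis.nm]
      linear_combination (3 * N.a + m1 * ρ - 3 * N.b) * hNa +
        (3 * N.b + m2 * ρ - m1 * ρ) * hNb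
    rw [hn, hm] at this
    linarith
  have hq : 0 ≤ r * r - r * s + s * s := by
    nlinarith [sq_nonneg (r - s), sq_nonneg r, sq_nonneg s]
  have h3 : ρ = 3 := by nlinarith
  have hq0 : r * r - r * s + s * s = 0 := by omega
  omega

theorem fin_case0 (u : HQ (Eis ℤ)) (hn : u.nrd.nm = 1)
    (h : star u = (⟨⟨1, 0⟩, 0, 0, 0⟩ : HQ (Eis ℤ)) * u * star gg) : False := by
  obtain ⟨⟨x1, x2⟩, ⟨y1, y2⟩, ⟨z1, z2⟩, ⟨v1, v2⟩⟩ := u
  have h0 := congrArg (fun z => z.c0.a) h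
  have h1 := congrArg (fun z => z.c0.b) h
  have h2 := congrArg (fun z => z.c1.a) h
  have h3 := congrArg (fun z => z.c1.b) h
  have h4 := congrArg (fun z => z.c2.a) h
  have h5 := congrArg (fun z => z.c2.b) h
  have h6 := congrArg (fun z => z.c3.a) h
  have h7 := congrArg (fun z => z.c3.b) h
  clear h
  simp only [gg, HQ.c0_mul, HQ.c1_mul, HQ.c2_mul, HQ.c3_mul, HQ.c0_star, HQ.c1_star,
    HQ.c2_star, HQ.c3_star, Eis.a_add, Eis.b_add, Eis.a_sub, Eis.b_sub, Eis.a_neg, Eis.b_neg,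
    Eis.a_mul, Eis.b_mul, Eis.a_star, Eis.b_star, Eis.a_ofNat, Eis.b_ofNat, Eis.a_zero,
    Eis.b_zero] at h0 h1 h2 h3 h4 h5 h6 h7
  ring_nf at h0 h1 h2 h3 h4 h5 h6 h7
  obtain ⟨r, hr⟩ : ∃ r : ℤ, r = -(v1 - 2 * v2) - y1 := ⟨_, rfl⟩
  obtain ⟨s, hs⟩ : ∃ s : ℤ, s = -(2 * v1 - v2) - y2 := ⟨_, rfl⟩
  have e1 : y1 = 2 * r := by linarith
  have e2 : y2 = 2 * s := by linarith
  have e3 : z1 = 2 * r := by linarith
  have e4 : z2 = 2 * s := by linarith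
  have e5 : v1 = r - 2 * s := by linarith
  have e6 : v2 = 2 * r - s := by linarith
  have e7 : 3 * x1 = -3 * r + 9 * s := by linarith
  have e8 : 3 * x2 = -6 * r + 3 * s := by linarith
  clear hr hs h0 h1 h2 h3 h4 h5 h6 h7
  subst e1 e2 e3 e4 e5 e6
  refine fin_aux r s x1 x2 (-3 * r + 9 * s) (-6 * r + 3 * s)
    (9 * (r * r) + -9 * (r * s) + 6 * (s * s)) (-1) (0) e7 e8 (by ring) (by ring)
    (by norm_num) ?_ ?_ hn
  · nlinarith [sq_nonneg (2 * r - s), sq_nonneg (r - s), sq_nonneg (r - 2 * s),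
      sq_nonneg (r + s), sq_nonneg r, sq_nonneg s]
  · nlinarith [sq_nonneg (2 * r - s), sq_nonneg (r - s), sq_nonneg (r - 2 * s),
      sq_nonneg (r + s), sq_nonneg r, sq_nonneg s]

theorem fin_case1 (u : HQ (Eis ℤ)) (hn : u.nrd.nm = 1)
    (h : star u = (⟨⟨1, 1⟩, 0, 0, 0⟩ : HQ (Eis ℤ)) * u * star gg) : False := by
  obtain ⟨⟨x1, x2⟩, ⟨y1, y2⟩, ⟨z1, z2⟩, ⟨v1, v2⟩⟩ := u
  have h0 := congrArg (fun z => z.c0.a) h
  have h1 := congrArg (fun z => z.c0.b) h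
  have h2 := congrArg (fun z => z.c1.a) h
  have h3 := congrArg (fun z => z.c1.b) h
  have h4 := congrArg (fun z => z.c2.a) h
  have h5 := congrArg (fun z => z.c2.b) h
  have h6 := congrArg (fun z => z.c3.a) h
  have h7 := congrArg (fun z => z.c3.b) h
  clear h
  simp only [gg, HQ.c0_mul, HQ.c1_mul, HQ.c2_mul, HQ.c3_mul, HQ.c0_star, HQ.c1_star,
    HQ.c2_star, HQ.c3_star, Eis.a_add, Eis.b_add, Eis.a_sub, Eis.b_sub, Eis.a_neg, Eis.b_neg,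
    Eis.a_mul, Eis.b_mul, Eis.a_star, Eis.b_star, Eis.a_ofNat, Eis.b_ofNat, Eis.a_zero,
    Eis.b_zero] at h0 h1 h2 h3 h4 h5 h6 h7
  ring_nf at h0 h1 h2 h3 h4 h5 h6 h7
  obtain ⟨r, hr⟩ : ∃ r : ℤ, r = -(v1 - 2 * v2) - y1 := ⟨_, rfl⟩
  obtain ⟨s, hs⟩ : ∃ s : ℤ, s = -(2 * v1 - v2) - y2 := ⟨_, rfl⟩
  have e1 : y1 = 2 * r := by linarith
  have e2 : y2 = 2 * s := by linarith
  have e3 : z1 = 2 * r := by linarith
  have e4 : z2 = 2 * s := by linarith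
  have e5 : v1 = r - 2 * s := by linarith
  have e6 : v2 = 2 * r - s := by linarith
  have e7 : 3 * x1 = -2 * r + 7 * s := by linarith
  have e8 : 3 * x2 = -7 * r + 2 * s := by linarith
  clear hr hs h0 h1 h2 h3 h4 h5 h6 h7
  subst e1 e2 e3 e4 e5 e6
  refine fin_aux r s x1 x2 (-2 * r + 7 * s) (-7 * r + 2 * s)
    (8 * (r * r) + -11 * (r * s) + 8 * (s * s)) (0) (1) e7 e8 (by ring) (by ring)
    (by norm_num) ?_ ?_ hn
  · nlinarith [sq_nonneg (2 * r - s), sq_nonneg (r - s), sq_nonneg (r - 2 * s),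
      sq_nonneg (r + s), sq_nonneg r, sq_nonneg s]
  · nlinarith [sq_nonneg (2 * r - s), sq_nonneg (r - s), sq_nonneg (r - 2 * s),
      sq_nonneg (r + s), sq_nonneg r, sq_nonneg s]

theorem fin_case2 (u : HQ (Eis ℤ)) (hn : u.nrd.nm = 1)
    (h : star u = (⟨⟨0, 1⟩, 0, 0, 0⟩ : HQ (Eis ℤ)) * u * star gg) : False := by
  obtain ⟨⟨x1, x2⟩, ⟨y1, y2⟩, ⟨z1, z2⟩, ⟨v1, v2⟩⟩ := u
  have h0 := congrArg (fun z => z.c0.a) h
  have h1 := congrArg (fun z => z.c0.b) h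
  have h2 := congrArg (fun z => z.c1.a) h
  have h3 := congrArg (fun z => z.c1.b) h
  have h4 := congrArg (fun z => z.c2.a) h
  have h5 := congrArg (fun z => z.c2.b) h
  have h6 := congrArg (fun z => z.c3.a) h
  have h7 := congrArg (fun z => z.c3.b) h
  clear h
  simp only [gg, HQ.c0_mul, HQ.c1_mul, HQ.c2_mul, HQ.c3_mul, HQ.c0_star, HQ.c1_star,
    HQ.c2_star, HQ.c3_star, Eis.a_add, Eis.b_add, Eis.a_sub, Eis.b_sub, Eis.a_neg, Eis.b_neg,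
    Eis.a_mul, Eis.b_mul, Eis.a_star, Eis.b_star, Eis.a_ofNat, Eis.b_ofNat, Eis.a_zero,
    Eis.b_zero] at h0 h1 h2 h3 h4 h5 h6 h7
  ring_nf at h0 h1 h2 h3 h4 h5 h6 h7
  obtain ⟨r, hr⟩ : ∃ r : ℤ, r = -(v1 - 2 * v2) - y1 := ⟨_, rfl⟩
  obtain ⟨s, hs⟩ : ∃ s : ℤ, s = -(2 * v1 - v2) - y2 := ⟨_, rfl⟩
  have e1 : y1 = 2 * r := by linarith
  have e2 : y2 = 2 * s := by linarith
  have e3 : z1 = 2 * r := by linarith
  have e4 : z2 = 2 * s := by linarith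
  have e5 : v1 = r - 2 * s := by linarith
  have e6 : v2 = 2 * r - s := by linarith
  have e7 : 3 * x1 = -3 * r + 6 * s := by linarith
  have e8 : 3 * x2 = -9 * r + 3 * s := by linarith
  clear hr hs h0 h1 h2 h3 h4 h5 h6 h7
  subst e1 e2 e3 e4 e5 e6
  refine fin_aux r s x1 x2 (-3 * r + 6 * s) (-9 * r + 3 * s)
    (6 * (r * r) + -9 * (r * s) + 9 * (s * s)) (1) (1) e7 e8 (by ring) (by ring)
    (by norm_num) ?_ ?_ hn
  · nlinarith [sq_nonneg (2 * r - s), sq_nonneg (r - s), sq_nonneg (r - 2 * s),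
      sq_nonneg (r + s), sq_nonneg r, sq_nonneg s]
  · nlinarith [sq_nonneg (2 * r - s), sq_nonneg (r - s), sq_nonneg (r - 2 * s),
      sq_nonneg (r + s), sq_nonneg r, sq_nonneg s]

theorem fin_case3 (u : HQ (Eis ℤ)) (hn : u.nrd.nm = 1)
    (h : star u = (⟨⟨-1, 0⟩, 0, 0, 0⟩ : HQ (Eis ℤ)) * u * star gg) : False := by
  obtain ⟨⟨x1, x2⟩, ⟨y1, y2⟩, ⟨z1, z2⟩, ⟨v1, v2⟩⟩ := u
  have h0 := congrArg (fun z => z.c0.a) h
  have h1 := congrArg (fun z => z.c0.b) h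
  have h2 := congrArg (fun z => z.c1.a) h
  have h3 := congrArg (fun z => z.c1.b) h
  have h4 := congrArg (fun z => z.c2.a) h
  have h5 := congrArg (fun z => z.c2.b) h
  have h6 := congrArg (fun z => z.c3.a) h
  have h7 := congrArg (fun z => z.c3.b) h
  clear h
  simp only [gg, HQ.c0_mul, HQ.c1_mul, HQ.c2_mul, HQ.c3_mul, HQ.c0_star, HQ.c1_star,
    HQ.c2_star, HQ.c3_star, Eis.a_add, Eis.b_add, Eis.a_sub, Eis.b_sub, Eis.a_neg, Eis.b_neg,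
    Eis.a_mul, Eis.b_mul, Eis.a_star, Eis.b_star, Eis.a_ofNat, Eis.b_ofNat, Eis.a_zero,
    Eis.b_zero] at h0 h1 h2 h3 h4 h5 h6 h7
  ring_nf at h0 h1 h2 h3 h4 h5 h6 h7
  obtain ⟨r, hr⟩ : ∃ r : ℤ, r = -(v1 - 2 * v2) - y1 := ⟨_, rfl⟩
  obtain ⟨s, hs⟩ : ∃ s : ℤ, s = -(2 * v1 - v2) - y2 := ⟨_, rfl⟩
  have e1 : y1 = 2 * r := by linarith
  have e2 : y2 = 2 * s := by linarith
  have e3 : z1 = 2 * r := by linarith
  have e4 : z2 = 2 * s := by linarith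
  have e5 : v1 = r - 2 * s := by linarith
  have e6 : v2 = 2 * r - s := by linarith
  have e7 : 3 * x1 = -5 * r + 7 * s := by linarith
  have e8 : 3 * x2 = -10 * r + 5 * s := by linarith
  clear hr hs h0 h1 h2 h3 h4 h5 h6 h7
  subst e1 e2 e3 e4 e5 e6
  refine fin_aux r s x1 x2 (-5 * r + 7 * s) (-10 * r + 5 * s)
    (5 * (r * r) + -5 * (r * s) + 8 * (s * s)) (1) (0) e7 e8 (by ring) (by ring)
    (by norm_num) ?_ ?_ hn
  · nlinarith [sq_nonneg (2 * r - s), sq_nonneg (r - s), sq_nonneg (r - 2 * s),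
      sq_nonneg (r + s), sq_nonneg r, sq_nonneg s]
  · nlinarith [sq_nonneg (2 * r - s), sq_nonneg (r - s), sq_nonneg (r - 2 * s),
      sq_nonneg (r + s), sq_nonneg r, sq_nonneg s]

theorem fin_case4 (u : HQ (Eis ℤ)) (hn : u.nrd.nm = 1)
    (h : star u = (⟨⟨-1, -1⟩, 0, 0, 0⟩ : HQ (Eis ℤ)) * u * star gg) : False := by
  obtain ⟨⟨x1, x2⟩, ⟨y1, y2⟩, ⟨z1, z2⟩, ⟨v1, v2⟩⟩ := u
  have h0 := congrArg (fun z => z.c0.a) h
  have h1 := congrArg (fun z => z.c0.b) h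
  have h2 := congrArg (fun z => z.c1.a) h
  have h3 := congrArg (fun z => z.c1.b) h
  have h4 := congrArg (fun z => z.c2.a) h
  have h5 := congrArg (fun z => z.c2.b) h
  have h6 := congrArg (fun z => z.c3.a) h
  have h7 := congrArg (fun z => z.c3.b) h
  clear h
  simp only [gg, HQ.c0_mul, HQ.c1_mul, HQ.c2_mul, HQ.c3_mul, HQ.c0_star, HQ.c1_star,
    HQ.c2_star, HQ.c3_star, Eis.a_add, Eis.b_add, Eis.a_sub, Eis.b_sub, Eis.a_neg, Eis.b_neg,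
    Eis.a_mul, Eis.b_mul, Eis.a_star, Eis.b_star, Eis.a_ofNat, Eis.b_ofNat, Eis.a_zero,
    Eis.b_zero] at h0 h1 h2 h3 h4 h5 h6 h7
  ring_nf at h0 h1 h2 h3 h4 h5 h6 h7
  obtain ⟨r, hr⟩ : ∃ r : ℤ, r = -(v1 - 2 * v2) - y1 := ⟨_, rfl⟩
  obtain ⟨s, hs⟩ : ∃ s : ℤ, s = -(2 * v1 - v2) - y2 := ⟨_, rfl⟩
  have e1 : y1 = 2 * r := by linarith
  have e2 : y2 = 2 * s := by linarith
  have e3 : z1 = 2 * r := by linarith
  have e4 : z2 = 2 * s := by linarith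
  have e5 : v1 = r - 2 * s := by linarith
  have e6 : v2 = 2 * r - s := by linarith
  have e7 : 3 * x1 = -6 * r + 9 * s := by linarith
  have e8 : 3 * x2 = -9 * r + 6 * s := by linarith
  clear hr hs h0 h1 h2 h3 h4 h5 h6 h7
  subst e1 e2 e3 e4 e5 e6
  refine fin_aux r s x1 x2 (-6 * r + 9 * s) (-9 * r + 6 * s)
    (6 * (r * r) + -3 * (r * s) + 6 * (s * s)) (0) (-1) e7 e8 (by ring) (by ring)
    (by norm_num) ?_ ?_ hn
  · nlinarith [sq_nonneg (2 * r - s), sq_nonneg (r - s), sq_nonneg (r - 2 * s),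
      sq_nonneg (r + s), sq_nonneg r, sq_nonneg s]
  · nlinarith [sq_nonneg (2 * r - s), sq_nonneg (r - s), sq_nonneg (r - 2 * s),
      sq_nonneg (r + s), sq_nonneg r, sq_nonneg s]

theorem fin_case5 (u : HQ (Eis ℤ)) (hn : u.nrd.nm = 1)
    (h : star u = (⟨⟨0, -1⟩, 0, 0, 0⟩ : HQ (Eis ℤ)) * u * star gg) : False := by
  obtain ⟨⟨x1, x2⟩, ⟨y1, y2⟩, ⟨z1, z2⟩, ⟨v1, v2⟩⟩ := u
  have h0 := congrArg (fun z => z.c0.a) h
  have h1 := congrArg (fun z => z.c0.b) h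
  have h2 := congrArg (fun z => z.c1.a) h
  have h3 := congrArg (fun z => z.c1.b) h
  have h4 := congrArg (fun z => z.c2.a) h
  have h5 := congrArg (fun z => z.c2.b) h
  have h6 := congrArg (fun z => z.c3.a) h
  have h7 := congrArg (fun z => z.c3.b) h
  clear h
  simp only [gg, HQ.c0_mul, HQ.c1_mul, HQ.c2_mul, HQ.c3_mul, HQ.c0_star, HQ.c1_star,
    HQ.c2_star, HQ.c3_star, Eis.a_add, Eis.b_add, Eis.a_sub, Eis.b_sub, Eis.a_neg, Eis.b_neg,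
    Eis.a_mul, Eis.b_mul, Eis.a_star, Eis.b_star, Eis.a_ofNat, Eis.b_ofNat, Eis.a_zero,
    Eis.b_zero] at h0 h1 h2 h3 h4 h5 h6 h7
  ring_nf at h0 h1 h2 h3 h4 h5 h6 h7
  obtain ⟨r, hr⟩ : ∃ r : ℤ, r = -(v1 - 2 * v2) - y1 := ⟨_, rfl⟩
  obtain ⟨s, hs⟩ : ∃ s : ℤ, s = -(2 * v1 - v2) - y2 := ⟨_, rfl⟩
  have e1 : y1 = 2 * r := by linarith
  have e2 : y2 = 2 * s := by linarith
  have e3 : z1 = 2 * r := by linarith
  have e4 : z2 = 2 * s := by linarith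
  have e5 : v1 = r - 2 * s := by linarith
  have e6 : v2 = 2 * r - s := by linarith
  have e7 : 3 * x1 = -5 * r + 10 * s := by linarith
  have e8 : 3 * x2 = -7 * r + 5 * s := by linarith
  clear hr hs h0 h1 h2 h3 h4 h5 h6 h7
  subst e1 e2 e3 e4 e5 e6
  refine fin_aux r s x1 x2 (-5 * r + 10 * s) (-7 * r + 5 * s)
    (8 * (r * r) + -5 * (r * s) + 5 * (s * s)) (-1) (-1) e7 e8 (by ring) (by ring)
    (by norm_num) ?_ ?_ hn
  · nlinarith [sq_nonneg (2 * r - s), sq_nonneg (r - s), sq_nonneg (r - 2 * s),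
      sq_nonneg (r + s), sq_nonneg r, sq_nonneg s]
  · nlinarith [sq_nonneg (2 * r - s), sq_nonneg (r - s), sq_nonneg (r - 2 * s),
      sq_nonneg (r + s), sq_nonneg r, sq_nonneg s]

/-- The final contradiction, integral form. -/
theorem finalZ (u v : HQ (Eis ℤ)) (huv : u * v = 1) (m : ℕ)
    (h : star u = tt ^ m * u * star gg) : False := by
  have hn : u.nrd.nm = 1 := by
    have h1 : u.nrd.nm * v.nrd.nm = 1 := by
      rw [← Eis.nm_mul, ← HQ.nrd_mul, huv, HQ.nrd_one]; rfl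
    have h2 := nm_nonneg u.nrd
    rcases Int.eq_one_or_neg_one_of_mul_eq_one h1 with h3 | h3
    · exact h3
    · omega
  have hm : (tt : HQ (Eis ℤ)) ^ m = tt ^ (m % 6) := by
    conv_lhs => rw [← Nat.div_add_mod m 6, pow_add, pow_mul, tt_pow_six, one_pow, one_mul]
  rw [hm] at h
  have hlt : m % 6 < 6 := Nat.mod_lt _ (by norm_num)
  generalize m % 6 = k at h hlt
  have t0 : (tt : HQ (Eis ℤ)) ^ 0 = ⟨⟨1, 0⟩, 0, 0, 0⟩ := by decide
  have t1 : (tt : HQ (Eis ℤ)) ^ 1 = ⟨⟨1, 1⟩, 0, 0, 0⟩ := by decide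
  have t2 : (tt : HQ (Eis ℤ)) ^ 2 = ⟨⟨0, 1⟩, 0, 0, 0⟩ := by decide
  have t3 : (tt : HQ (Eis ℤ)) ^ 3 = ⟨⟨-1, 0⟩, 0, 0, 0⟩ := by decide
  have t4 : (tt : HQ (Eis ℤ)) ^ 4 = ⟨⟨-1, -1⟩, 0, 0, 0⟩ := by decide
  have t5 : (tt : HQ (Eis ℤ)) ^ 5 = ⟨⟨0, -1⟩, 0, 0, 0⟩ := by decide
  interval_cases k
  · exact fin_case0 u hn (t0 ▸ h)
  · exact fin_case1 u hn (t1 ▸ h)
  · exact fin_case2 u hn (t2 ▸ h)
  · exact fin_case3 u hn (t3 ▸ h)
  · exact fin_case4 u hn (t4 ▸ h)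
  · exact fin_case5 u hn (t5 ▸ h)

/-- The final contradiction: no unit `U` of the order `O` satisfies `U* = μ U (μ' g)*` with `μ`,
`μ'` powers of `t`. -/
theorem final (U : D) (hU : U ∈ O) (hV : U⁻¹ ∈ O) (hU0 : U ≠ 0) (m k : ℕ)
    (h : star U = tt ^ m * U * star (tt ^ k * gg)) : False := by
  obtain ⟨u, rfl⟩ := hU
  obtain ⟨v, hv⟩ := hV
  have huv : u * v = 1 := by
    apply emb_injective
    rw [map_mul, map_one, hv, mul_inv_cancel₀ hU0]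
  apply finalZ u v huv (m + 5 * k)
  apply emb_injective
  rw [emb_star, map_mul, map_mul, map_pow, emb_tt, emb_star, emb_gg, h, star_mul, star_pow]
  have e5 : star (tt : D) = tt ^ 5 := by
    rw [← emb_tt, ← emb_star, ← map_pow]
    exact congrArg emb (by decide)
  have c : ∀ x : D, Commute (tt : D) x := six_tt.central
  rw [e5, pow_add, pow_mul]
  have := (((c (star (gg : D))).pow_left 5).pow_left k).eq
  have h2 := (((c (emb u)).pow_left 5).pow_left k).eq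
  rw [← this, ← mul_assoc, mul_assoc (tt ^ m) (emb u), ← h2, ← mul_assoc]

/-- The final contradiction in the form used by block V. -/
theorem no_unit (U : D) (hU : U ∈ O) (hU1 : U⁻¹ ∈ O) (h0 : U ≠ 0) (m : D)
    (hm : m ∈ Six.mu (tt : D)) (h : star U = m * U * star (gg : D)) : False := by
  obtain ⟨i, rfl⟩ := hm
  refine final U hU hU1 h0 i 0 ?_
  rw [pow_zero, one_mul]
  exact h

end Pool.Agent.helper82.SBA
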