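import Pool.Agent.helper82.SBA.Fin

set_option autoImplicit false

/-!
# The hermitian space of the colouring of the connected sum of two figure-eight knots
-/

namespace Pool.Agent.helper82.SBA

open Pool.Agent.helper81.SBX

/-- The space of the colouring. -/
abbrev V := Fin 3 → D

/-- The diagonal entries `1, 1 - J₁, 1 - J₂` of the Gram matrix. -/
def dg : Fin 3 → D := ![1, 1 - J1, 1 - J2]

theorem star_dg (i : Fin 3) : star (dg i) = dg i := by
  fin_cases i
  · simp [dg]
  · ext <;> simp [dg, J1]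
  · ext <;> simp [dg, J2]

theorem dg_ne_zero (i : Fin 3) : dg i ≠ 0 := by
  intro h
  have h0 := congrArg (fun z : D => z.c0.a) h
  fin_cases i <;> simp [dg, J1, J2] at h0

/-- The hermitian form `x₀ y₀* + x₁ (1 - J₁) y₁* + x₂ (1 - J₂) y₂*`. -/
noncomputable def hm (x y : V) : D := ∑ i, x i * dg i * star (y i)

/-- The hermitian space. -/
noncomputable def Hm : Herm D V where
  H := hm
  add_left x y z := by simp only [hm, Pi.add_apply, add_mul, Finset.sum_add_distrib]
  smul_left a x z := by simp only [hm, Pi.smul_apply, smul_eq_mul, Finset.mul_sum, mul_assoc]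
  herm x y := by simp only [hm, star_sum, star_mul, star_star, star_dg, mul_assoc]
  nondeg x h := by
    funext i
    have h1 := h (Pi.single i 1)
    simp only [hm] at h1
    rw [Finset.sum_eq_single i] at h1
    · simp only [Pi.single_eq_same, star_one, mul_one] at h1
      rcases mul_eq_zero.1 h1 with h2 | h2
      · exact h2
      · exact absurd h2 (dg_ne_zero i)
    · intro j _ hj
      simp [Pi.single_eq_of_ne hj]
    · intro hi; exact absurd (Finset.mem_univ i) hi

theorem finrank_V : Module.finrank D V = 3 := by simp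

theorem emb_mem_O (x : HQ (Eis ℤ)) : emb x ∈ O := ⟨x, rfl⟩

theorem star_mem_O (x : D) (hx : x ∈ O) : star x ∈ O := by
  obtain ⟨y, rfl⟩ := hx
  exact ⟨star y, emb_star y⟩

theorem tt_mem_O : (tt : D) ∈ O := ⟨tt, emb_tt⟩

theorem gg_mem_O : (gg : D) ∈ O := ⟨gg, emb_gg⟩

theorem dg_mem_O (i : Fin 3) : dg i ∈ O := by
  fin_cases i
  · exact O.one_mem
  · exact O.sub_mem O.one_mem ⟨J1, emb_J1⟩
  · exact O.sub_mem O.one_mem ⟨J2, emb_J2⟩

/-- The lattice `O³`. -/
def Lam : AddSubgroup V where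
  carrier := {x | ∀ i, x i ∈ O}
  add_mem' ha hb i := O.add_mem (ha i) (hb i)
  zero_mem' _ := O.zero_mem
  neg_mem' ha i := O.neg_mem (ha i)

theorem mem_Lam (x : V) : x ∈ Lam ↔ ∀ i, x i ∈ O := Iff.rfl

theorem smul_mem_Lam (a : D) (ha : a ∈ O) (x : V) (hx : x ∈ Lam) : a • x ∈ Lam :=
  fun i => O.mul_mem ha (hx i)

theorem Hm_mem_O (x y : V) (hx : x ∈ Lam) (hy : y ∈ Lam) : Hm.H x y ∈ O := by
  change hm x y ∈ O
  exact O.sum_mem fun i _ => O.mul_mem (O.mul_mem (hx i) (dg_mem_O i)) (star_mem_O _ (hy i))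

/-- The integral form, for computations. -/
def dgZ : Fin 3 → HQ (Eis ℤ) := ![1, 1 - J1, 1 - J2]

/-- The integral form, for computations. -/
def hmZ (x y : Fin 3 → HQ (Eis ℤ)) : HQ (Eis ℤ) :=
  x 0 * dgZ 0 * star (y 0) + x 1 * dgZ 1 * star (y 1) + x 2 * dgZ 2 * star (y 2)

/-- The embedding of `O³`. -/
def embV (x : Fin 3 → HQ (Eis ℤ)) : V := fun i => emb (x i)

theorem emb_dgZ (i : Fin 3) : emb (dgZ i) = dg i := by
  fin_cases i
  · exact map_one emb
  · simp only [dgZ, dg]
    exact (map_sub emb 1 J1).trans (by rw [map_one, emb_J1]; rfl)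
  · simp only [dgZ, dg]
    exact (map_sub emb 1 J2).trans (by rw [map_one, emb_J2]; rfl)

theorem Hm_embV (x y : Fin 3 → HQ (Eis ℤ)) : Hm.H (embV x) (embV y) = emb (hmZ x y) := by
  change hm (embV x) (embV y) = _
  simp only [hm, Fin.sum_univ_three, hmZ, embV, map_add, map_mul, emb_dgZ, emb_star]

theorem embV_mem_Lam (x : Fin 3 → HQ (Eis ℤ)) : embV x ∈ Lam := fun i => ⟨x i, rfl⟩

end Pool.Agent.helper82.SBA
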